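import Pool.Agent.Helper63.XP.StA

/-!
# XP module FPL: the `l^2` norm of the moment curve graph with phases
-/

set_option autoImplicit false

namespace Pool.Agent.Helper2.XP

open Pool.Agent.Helper63.XP

/-- Plancherel for a family of characters. -/
theorem plaF {W K : Type} [AddCommGroup W] [Fintype W] [DecidableEq W] [Fintype K] (χ : K → AddChar W ℂ) (C : ℝ)
    (h : ∀ D, ∑ κ, χ κ D = if D = 0 then (C : ℂ) else 0) (f : W → ℂ) :
    ∑ κ, ‖∑ R, f R * χ κ (-R)‖ ^ 2 = C * ∑ R, ‖f R‖ ^ 2 := by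
  have key : ((∑ κ, ‖∑ R, f R * χ κ (-R)‖ ^ 2 : ℝ) : ℂ) = ((C * ∑ R, ‖f R‖ ^ 2 : ℝ) : ℂ) := by
    push_cast
    have e1 : ∀ z : ℂ, ((‖z‖ : ℂ)) ^ 2 = z * starRingEnd ℂ z := fun z => (Complex.mul_conj' z).symm
    simp only [e1]
    calc ∑ κ, (∑ R, f R * χ κ (-R)) * starRingEnd ℂ (∑ R, f R * χ κ (-R))
        = ∑ κ, ∑ R, ∑ R', (f R * starRingEnd ℂ (f R')) * χ κ (R' - R) := by
          refine Finset.sum_congr rfl fun κ _ => ?_
          rw [map_sum, Finset.sum_mul_sum]
          refine Finset.sum_congr rfl fun R _ => Finset.sum_congr rfl fun R' _ => ?_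
          rw [map_mul, AddChar.map_neg_eq_conj (χ κ) R', Complex.conj_conj, sub_eq_add_neg, AddChar.map_add_eq_mul]
          ring
      _ = ∑ R, ∑ R', (f R * starRingEnd ℂ (f R')) * ∑ κ, χ κ (R' - R) := by
          rw [Finset.sum_comm]
          refine Finset.sum_congr rfl fun R _ => ?_
          rw [Finset.sum_comm]
          refine Finset.sum_congr rfl fun R' _ => ?_
          rw [Finset.mul_sum]
      _ = ∑ R, (f R * starRingEnd ℂ (f R)) * C := by
          refine Finset.sum_congr rfl fun R _ => ?_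
          rw [Finset.sum_eq_single R]
          · rw [h, if_pos (sub_self R)]
          · intro R' _ hR'
            rw [h, if_neg (sub_ne_zero.mpr hR'), mul_zero]
          · intro hR
            exact absurd (Finset.mem_univ R) hR
      _ = C * ∑ R, f R * starRingEnd ℂ (f R) := by
          rw [← Finset.sum_mul, mul_comm]
  exact_mod_cast key

section

variable {F : Type} [Field F] [Fintype F] [DecidableEq F]

theorem orth1 (ψ : AddChar F ℂ) (hψ : ψ.IsPrimitive) (D : F) :
    ∑ y, (AddChar.mulShift ψ y) D = if D = 0 then (((Fintype.card F : ℝ)) : ℂ) else 0 := by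
  have h := AddChar.sum_mulShift (ψ := ψ) D hψ
  simp only [AddChar.mulShift_apply]
  rw [h]
  split_ifs <;> simp

/-- the character `R ↦ ψ(∑ κ_a R_a)` -/
noncomputable def chW (ψ : AddChar F ℂ) (w : ℕ) (κ : Fin w → F) : AddChar (Fin w → F) ℂ where
  toFun := fun R => ψ (∑ a, κ a * R a)
  map_zero_eq_one' := by simp
  map_add_eq_mul' := by
    intro R S
    rw [← AddChar.map_add_eq_mul]
    congr 1
    rw [← Finset.sum_add_distrib]
    refine Finset.sum_congr rfl fun a _ => ?_
    simp only [Pi.add_apply]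
    ring

theorem chW_apply (ψ : AddChar F ℂ) (w : ℕ) (κ R : Fin w → F) : chW ψ w κ R = ψ (∑ a, κ a * R a) := rfl

theorem orthW (ψ : AddChar F ℂ) (hψ : ψ.IsPrimitive) (w : ℕ) (D : Fin w → F) :
    ∑ κ, chW ψ w κ D = if D = 0 then ((((Fintype.card F : ℝ)) ^ w : ℝ) : ℂ) else 0 := by
  have e : ∀ κ, chW ψ w κ D = chW ψ w D κ := by
    intro κ
    rw [chW_apply, chW_apply]
    congr 1
    exact Finset.sum_congr rfl fun a _ => mul_comm _ _
  simp only [e]
  by_cases hD : D = 0
  · rw [if_pos hD, hD]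
    have : ∀ κ : Fin w → F, chW ψ w 0 κ = 1 := by
      intro κ
      rw [chW_apply]
      simp
    simp only [this]
    simp
  · rw [if_neg hD]
    apply AddChar.sum_eq_zero_of_ne_one
    obtain ⟨a, ha⟩ := Function.ne_iff.mp hD
    obtain ⟨t, ht⟩ := AddChar.ne_one_iff.mp (hψ ha)
    rw [AddChar.ne_one_iff]
    refine ⟨Pi.single a t, ?_⟩
    rw [chW_apply]
    have : ∑ b, D b * (Pi.single a t : Fin w → F) b = D a * t := by
      rw [Finset.sum_eq_single a]
      · simp
      · intro b _ hb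
        simp [hb]
      · intro h
        exact absurd (Finset.mem_univ a) h
    rw [this]
    simpa [AddChar.mulShift_apply] using ht

open Classical in
/-- the annihilator -/
noncomputable def annI (ψ : AddChar F ℂ) (I : AddSubgroup F) : Finset F :=
  Finset.univ.filter fun z => ∀ i ∈ I, ψ (i * z) = 1

open Classical in
theorem ann_card (ψ : AddChar F ℂ) (hψ : ψ.IsPrimitive) (I : AddSubgroup F) :
    ((annI ψ I).card : ℝ) * Nat.card I = Fintype.card F := by
  have hP := plaF (fun y => AddChar.mulShift ψ y) (Fintype.card F) (orth1 ψ hψ) (fun i => if i ∈ I then 1 else 0)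
  have h1 : ∑ R : F, ‖(if R ∈ I then (1 : ℂ) else 0)‖ ^ 2 = Nat.card I := by
    have : ∀ R : F, ‖(if R ∈ I then (1 : ℂ) else 0)‖ ^ 2 = if R ∈ I then (1 : ℝ) else 0 := by
      intro R
      split_ifs <;> simp
    simp only [this]
    rw [Finset.sum_boole, Nat.card_eq_fintype_card, Fintype.card_subtype]
  have h2 : ∀ y : F, ∑ R : F, (if R ∈ I then (1 : ℂ) else 0) * (AddChar.mulShift ψ y) (-R) =
      if y ∈ annI ψ I then (Nat.card I : ℂ) else 0 := by
    intro y
    have e : ∑ R : F, (if R ∈ I then (1 : ℂ) else 0) * (AddChar.mulShift ψ y) (-R) = ∑ i : I, ψ (-((i : F) * y)) := by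
      have : ∀ R : F, (if R ∈ I then (1 : ℂ) else 0) * (AddChar.mulShift ψ y) (-R) =
          if R ∈ I then ψ (-(R * y)) else 0 := by
        intro R
        split_ifs
        · rw [one_mul, AddChar.mulShift_apply]
          congr 1
          ring
        · rw [zero_mul]
      simp only [this]
      rw [← Finset.sum_filter]
      exact Finset.sum_subtype _ (by simp) _
    rw [e]
    -- the character of `I`
    let θ : AddChar I ℂ := 
      { toFun := fun i => ψ (-((i : F) * y))
        map_zero_eq_one' := by simp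
        map_add_eq_mul' := by
          intro i j
          rw [← AddChar.map_add_eq_mul]
          congr 1
          push_cast
          ring }
    have hθ : ∀ i : I, θ i = ψ (-((i : F) * y)) := fun i => rfl
    simp only [← hθ]
    by_cases hy : y ∈ annI ψ I
    · rw [if_pos hy]
      have : ∀ i : I, θ i = 1 := by
        intro i
        rw [hθ]
        have := (Finset.mem_filter.mp hy).2 (-(i : F)) (I.neg_mem i.2)
        rw [← this]
        congr 1
        ring
      simp only [this]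
      simp [Nat.card_eq_fintype_card]
    · rw [if_neg hy]
      apply AddChar.sum_eq_zero_of_ne_one
      rw [AddChar.ne_one_iff]
      by_contra hcon
      push Not at hcon
      apply hy
      refine Finset.mem_filter.mpr ⟨Finset.mem_univ _, fun i hi => ?_⟩
      have := hcon ⟨-i, I.neg_mem hi⟩
      rw [hθ] at this
      rw [← this]
      congr 1
      push_cast
      ring
  simp only [h2] at hP
  rw [h1] at hP
  have h3 : ∑ y : F, ‖(if y ∈ annI ψ I then (Nat.card I : ℂ) else 0)‖ ^ 2 = (annI ψ I).card * (Nat.card I : ℝ) ^ 2 := by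
    have : ∀ y : F, ‖(if y ∈ annI ψ I then (Nat.card I : ℂ) else 0)‖ ^ 2 =
        if y ∈ annI ψ I then (Nat.card I : ℝ) ^ 2 else 0 := by
      intro y
      split_ifs
      · simp
      · simp
    simp only [this]
    rw [← Finset.sum_filter, Finset.sum_const, nsmul_eq_mul]
    congr 2
    congr 1
    ext y
    simp
  rw [h3] at hP
  have hI : (0 : ℝ) < Nat.card I := by
    have : 0 < Nat.card I := Nat.card_pos
    exact_mod_cast this
  have : ((annI ψ I).card * (Nat.card I : ℝ)) * Nat.card I = (Fintype.card F : ℝ) * Nat.card I := by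
    rw [← hP]
    ring
  exact mul_right_cancel₀ hI.ne' this

open Classical in
theorem onedF (ψ : AddChar F ℂ) (hψ : ψ.IsPrimitive) (I : AddSubgroup F) (G : F → F) (c : ℝ)
    (hc : ∀ y, (Nat.card {x : F // ∀ i ∈ I, ψ (i * (G x - y)) = 1} : ℝ) * Nat.card I ≤ c)
    (a : F → ℂ) (ha : ∀ i, i ∉ I → a i = 0) :
    ∑ x, ‖∑ i, ψ (-(i * G x)) * a i‖ ^ 2 ≤ c * ∑ i, ‖a i‖ ^ 2 := by
  have hP := plaF (fun y => AddChar.mulShift ψ y) (Fintype.card F) (orth1 ψ hψ) a
  set A : F → ℂ := fun y => ∑ i, ψ (-(i * y)) * a i with hA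
  have hA' : ∀ y, ∑ R, a R * (AddChar.mulShift ψ y) (-R) = A y := by
    intro y
    simp only [hA]
    refine Finset.sum_congr rfl fun i _ => ?_
    rw [AddChar.mulShift_apply, mul_comm]
    congr 2
    ring
  simp only [hA'] at hP
  have hcos : ∀ y z, z ∈ annI ψ I → A (y + z) = A y := by
    intro y z hz
    simp only [hA]
    refine Finset.sum_congr rfl fun i _ => ?_
    by_cases hi : i ∈ I
    · have := (Finset.mem_filter.mp hz).2 (-i) (I.neg_mem hi)
      have e : -(i * (y + z)) = -(i * y) + (-i) * z := by ring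
      rw [e, AddChar.map_add_eq_mul, this, mul_one]
    · rw [ha i hi, mul_zero, mul_zero]
  have hI : (0 : ℝ) < Nat.card I := by
    have : 0 < Nat.card I := Nat.card_pos
    exact_mod_cast this
  have hn : (0 : ℝ) < (annI ψ I).card := by
    have : 0 < (annI ψ I).card := by
      apply Finset.card_pos.mpr
      exact ⟨0, Finset.mem_filter.mpr ⟨Finset.mem_univ _, fun i _ => by simp⟩⟩
    exact_mod_cast this
  have step : ((annI ψ I).card : ℝ) * ∑ x, ‖A (G x)‖ ^ 2 =
      ∑ y, ‖A y‖ ^ 2 * (Nat.card {x : F // ∀ i ∈ I, ψ (i * (G x - y)) = 1} : ℝ) := by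
    calc ((annI ψ I).card : ℝ) * ∑ x, ‖A (G x)‖ ^ 2
        = ∑ x, ∑ z ∈ annI ψ I, ‖A (G x)‖ ^ 2 := by
          rw [Finset.mul_sum]
          refine Finset.sum_congr rfl fun x _ => ?_
          rw [Finset.sum_const, nsmul_eq_mul]
      _ = ∑ x, ∑ y, if G x - y ∈ annI ψ I then ‖A y‖ ^ 2 else 0 := by
          refine Finset.sum_congr rfl fun x _ => ?_
          rw [← Finset.sum_filter]
          refine Finset.sum_bij (fun z _ => G x - z) ?_ ?_ ?_ ?_
          · intro z hz
            simp only [Finset.mem_filter, Finset.mem_univ, true_and, sub_sub_cancel]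
            exact hz
          · intro z _ z' _ hzz
            simpa using hzz
          · intro y hy
            simp only [Finset.mem_filter, Finset.mem_univ, true_and] at hy
            exact ⟨G x - y, hy, by simp⟩
          · intro z hz
            have := hcos (G x - z) z hz
            rw [sub_add_cancel] at this
            rw [this]
      _ = ∑ y, ∑ x, if G x - y ∈ annI ψ I then ‖A y‖ ^ 2 else 0 := Finset.sum_comm
      _ = ∑ y, ‖A y‖ ^ 2 * (Nat.card {x : F // ∀ i ∈ I, ψ (i * (G x - y)) = 1} : ℝ) := by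
          refine Finset.sum_congr rfl fun y _ => ?_
          rw [← Finset.sum_filter, Finset.sum_const, nsmul_eq_mul, mul_comm]
          congr 2
          rw [Nat.card_eq_fintype_card, Fintype.card_subtype]
          congr 1
          ext x
          simp [annI]
  have h2 : ((annI ψ I).card : ℝ) * (∑ x, ‖A (G x)‖ ^ 2) * Nat.card I ≤ c * (Fintype.card F * ∑ i, ‖a i‖ ^ 2) := by
    rw [step, ← hP, Finset.sum_mul, Finset.mul_sum]
    refine Finset.sum_le_sum fun y _ => ?_
    calc ‖A y‖ ^ 2 * (Nat.card {x : F // ∀ i ∈ I, ψ (i * (G x - y)) = 1} : ℝ) * Nat.card I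
        = ‖A y‖ ^ 2 * ((Nat.card {x : F // ∀ i ∈ I, ψ (i * (G x - y)) = 1} : ℝ) * Nat.card I) := by ring
      _ ≤ ‖A y‖ ^ 2 * c := mul_le_mul_of_nonneg_left (hc y) (by positivity)
      _ = c * ‖A y‖ ^ 2 := mul_comm _ _
  rw [← ann_card ψ hψ I] at h2
  have h3 : (∑ x, ‖A (G x)‖ ^ 2) * (((annI ψ I).card : ℝ) * Nat.card I) ≤
      (c * ∑ i, ‖a i‖ ^ 2) * (((annI ψ I).card : ℝ) * Nat.card I) := by
    calc _ = ((annI ψ I).card : ℝ) * (∑ x, ‖A (G x)‖ ^ 2) * Nat.card I := by ring
      _ ≤ _ := h2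
      _ = _ := by ring
  exact le_of_mul_le_mul_right h3 (by positivity)

end

theorem hFPL : StFpl := by
  intro F _ _ _ ψ w I H c hψ hc g hg
  classical
  set q : ℝ := (Fintype.card F : ℝ) with hq
  have hq0 : 0 < q := by
    have : 0 < Fintype.card F := Fintype.card_pos
    rw [hq]
    exact_mod_cast this
  -- transforms
  set gh : (Fin w → F) → F → ℂ := fun κ i => ∑ R, g (i, R) * chW ψ w κ (-R) with hgh
  set A : F → (Fin w → F) → ℂ := fun x R => ∑ i : F, ψ (-(i * H x)) * g (i, R - i • vc w x) with hA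
  have hT : ∀ x κ, ∑ R, A x R * chW ψ w κ (-R) =
      ∑ i, ψ (-(i * (H x + ∑ a : Fin w, κ a * x ^ (a : ℕ)))) * gh κ i := by
    intro x κ
    simp only [hA, hgh]
    simp only [Finset.sum_mul]
    rw [Finset.sum_comm]
    refine Finset.sum_congr rfl fun i _ => ?_
    rw [Finset.mul_sum]
    refine Finset.sum_bij (fun R _ => R - i • vc w x) (fun _ _ => Finset.mem_univ _) ?_ ?_ ?_
    · intro R _ R' _ h
      simpa using h
    · intro R _
      exact ⟨R + i • vc w x, Finset.mem_univ _, by simp⟩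
    · intro R _
      have e1 : chW ψ w κ (-R) = ψ (-(i * ∑ a : Fin w, κ a * x ^ (a : ℕ))) * chW ψ w κ (-(R - i • vc w x)) := by
        rw [chW_apply, chW_apply, ← AddChar.map_add_eq_mul]
        congr 1
        rw [Finset.mul_sum, ← Finset.sum_neg_distrib, ← Finset.sum_add_distrib]
        refine Finset.sum_congr rfl fun a _ => ?_
        simp only [vc, Pi.neg_apply, Pi.sub_apply, Pi.smul_apply, smul_eq_mul]
        ring
      have e2 : -(i * (H x + ∑ a : Fin w, κ a * x ^ (a : ℕ))) = -(i * H x) + -(i * ∑ a : Fin w, κ a * x ^ (a : ℕ)) := by ring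
      rw [e1, e2, AddChar.map_add_eq_mul]
      ring
  have hPx : ∀ x, ∑ κ, ‖∑ R, A x R * chW ψ w κ (-R)‖ ^ 2 = q ^ w * ∑ R, ‖A x R‖ ^ 2 := fun x =>
    plaF (fun κ => chW ψ w κ) (q ^ w) (orthW ψ hψ w) (A x)
  have hPi : ∀ i, ∑ κ, ‖gh κ i‖ ^ 2 = q ^ w * ∑ R, ‖g (i, R)‖ ^ 2 := fun i =>
    plaF (fun κ => chW ψ w κ) (q ^ w) (orthW ψ hψ w) (fun R => g (i, R))
  have hone : ∀ κ, ∑ x, ‖∑ i, ψ (-(i * (H x + ∑ a : Fin w, κ a * x ^ (a : ℕ)))) * gh κ i‖ ^ 2 ≤ c * ∑ i, ‖gh κ i‖ ^ 2 := by
    intro κ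
    refine onedF ψ hψ I (fun x => H x + ∑ a : Fin w, κ a * x ^ (a : ℕ)) c (fun y => hc κ y) (gh κ) ?_
    intro i hi
    simp only [hgh]
    refine Finset.sum_eq_zero fun R _ => ?_
    rw [hg (i, R) hi, zero_mul]
  have hL : ∑ u : F × (Fin w → F), ‖∑ i : F, ψ (-(i * H u.1)) * g (i, u.2 - i • vc w u.1)‖ ^ 2 =
      ∑ x, ∑ R, ‖A x R‖ ^ 2 := by
    rw [← Finset.univ_product_univ, Finset.sum_product]
  have hR : ∑ v, ‖g v‖ ^ 2 = ∑ i, ∑ R, ‖g (i, R)‖ ^ 2 := by
    rw [← Finset.univ_product_univ, Finset.sum_product]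
  rw [hL, hR]
  have key : q ^ w * ∑ x, ∑ R, ‖A x R‖ ^ 2 ≤ q ^ w * (c * ∑ i, ∑ R, ‖g (i, R)‖ ^ 2) := by
    calc q ^ w * ∑ x, ∑ R, ‖A x R‖ ^ 2 = ∑ x, ∑ κ, ‖∑ R, A x R * chW ψ w κ (-R)‖ ^ 2 := by
          rw [Finset.mul_sum]
          exact Finset.sum_congr rfl fun x _ => (hPx x).symm
      _ = ∑ κ, ∑ x, ‖∑ i, ψ (-(i * (H x + ∑ a : Fin w, κ a * x ^ (a : ℕ)))) * gh κ i‖ ^ 2 := by
          rw [Finset.sum_comm]
          refine Finset.sum_congr rfl fun κ _ => Finset.sum_congr rfl fun x _ => ?_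
          rw [hT x κ]
      _ ≤ ∑ κ, c * ∑ i, ‖gh κ i‖ ^ 2 := Finset.sum_le_sum fun κ _ => hone κ
      _ = c * ∑ i, ∑ κ, ‖gh κ i‖ ^ 2 := by
          rw [← Finset.mul_sum, Finset.sum_comm]
      _ = c * ∑ i, q ^ w * ∑ R, ‖g (i, R)‖ ^ 2 := by
          congr 1
          exact Finset.sum_congr rfl fun i _ => hPi i
      _ = q ^ w * (c * ∑ i, ∑ R, ‖g (i, R)‖ ^ 2) := by
          rw [← Finset.mul_sum]
          ring
  exact le_of_mul_le_mul_left key (by positivity)

end Pool.Agent.Helper2.XP
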