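import Pool.Agent.Helper63.XP.StA

/-!
# XP module RTH: Riesz-Thorin between `l^1` and `l^2`
-/

set_option autoImplicit false

namespace Pool.Agent.Helper2.XP

open Pool.Agent.Helper63.XP

/-- entire and bounded on the strip `0 ≤ re ≤ 1` -/
def GoodR (F : ℂ → ℂ) : Prop :=
  Differentiable ℂ F ∧ ∃ B : ℝ, ∀ z : ℂ, 0 ≤ z.re → z.re ≤ 1 → ‖F z‖ ≤ B

theorem GoodR.sum {κ : Type*} (K : Finset κ) (F : κ → ℂ → ℂ) (h : ∀ k ∈ K, GoodR (F k)) :
    GoodR (fun z => ∑ k ∈ K, F k z) := by
  classical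
  induction K using Finset.induction_on with
  | empty =>
    refine ⟨?_, 0, fun z _ _ => ?_⟩
    · simp
    · simp
  | insert a s ha ih =>
    obtain ⟨h1, B1, hB1⟩ := h a (Finset.mem_insert_self a s)
    obtain ⟨h2, B2, hB2⟩ := ih fun k hk => h k (Finset.mem_insert_of_mem hk)
    refine ⟨?_, B1 + B2, fun z h0 h1' => ?_⟩
    · simp only [Finset.sum_insert ha]
      exact h1.add h2
    · simp only [Finset.sum_insert ha]
      exact (norm_add_le _ _).trans (add_le_add (hB1 z h0 h1') (hB2 z h0 h1'))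

theorem goodR_exp (c : ℂ) (u v : ℝ) : GoodR (fun z => c * Complex.exp (u + v * z)) := by
  refine ⟨by fun_prop, ‖c‖ * Real.exp (u + |v|), fun z h0 h1 => ?_⟩
  rw [norm_mul, Complex.norm_exp]
  have : ((u : ℂ) + v * z).re = u + v * z.re := by simp
  rw [this]
  have h2 : v * z.re ≤ |v| := by
    calc v * z.re ≤ |v| * z.re := mul_le_mul_of_nonneg_right (le_abs_self v) h0
      _ ≤ |v| * 1 := mul_le_mul_of_nonneg_left h1 (abs_nonneg v)
      _ = |v| := mul_one _
  exact mul_le_mul_of_nonneg_left (Real.exp_le_exp.mpr (by linarith)) (norm_nonneg c)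

theorem three_linesR {F : ℂ → ℂ} (hF : GoodR F) {a b : ℝ}
    (h0 : ∀ z : ℂ, z.re = 0 → ‖F z‖ ≤ a) (h1 : ∀ z : ℂ, z.re = 1 → ‖F z‖ ≤ b)
    (θ : ℝ) (hθ0 : 0 ≤ θ) (hθ1 : θ ≤ 1) : ‖F θ‖ ≤ a ^ (1 - θ) * b ^ θ := by
  obtain ⟨hd, B, hB⟩ := hF
  have := Complex.HadamardThreeLines.norm_le_interp_of_mem_verticalClosedStrip₀₁' F
    (z := (θ : ℂ)) (a := a) (b := b) ?_ hd.diffContOnCl ?_ ?_ ?_
  · simpa using this
  · simp [Complex.HadamardThreeLines.verticalClosedStrip, hθ0, hθ1]
  · refine ⟨B, ?_⟩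
    rintro _ ⟨z, hz, rfl⟩
    simp only [Complex.HadamardThreeLines.verticalClosedStrip, Set.mem_preimage, Set.mem_Icc] at hz
    exact hB z hz.1 hz.2
  · intro z hz
    exact h0 z (by simpa using hz)
  · intro z hz
    exact h1 z (by simpa using hz)

/-- `x / ‖x‖` -/
noncomputable def sg (x : ℂ) : ℂ := x / ‖x‖

theorem sg_norm {x : ℂ} (hx : x ≠ 0) : ‖sg x‖ = 1 := by
  unfold sg
  rw [norm_div, Complex.norm_real, norm_norm, div_self (norm_ne_zero_iff.mpr hx)]

theorem sg_norm_le (x : ℂ) : ‖sg x‖ ≤ 1 := by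
  by_cases hx : x = 0
  · simp [sg, hx]
  · exact (sg_norm hx).le

theorem sg_exp (x : ℂ) (s : ℝ) : ‖sg x‖ * Real.exp (s * Real.log ‖x‖) = if x = 0 then 0 else ‖x‖ ^ s := by
  by_cases hx : x = 0
  · simp [sg, hx]
  · rw [if_neg hx, sg_norm hx, one_mul, Real.rpow_def_of_pos (norm_pos_iff.mpr hx), mul_comm]

theorem sg_exp_le (x : ℂ) (s : ℝ) (hs : 0 < s) : ‖sg x‖ * Real.exp (s * Real.log ‖x‖) = ‖x‖ ^ s := by
  rw [sg_exp]
  by_cases hx : x = 0
  · rw [if_pos hx, hx, norm_zero, Real.zero_rpow hs.ne']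
  · rw [if_neg hx]

theorem bilR (m n : Type) [Fintype m] [Fintype n] (p q : ℝ) (M : Matrix m n ℂ) (a b : ℝ) (hp1 : 1 < p) (hp2 : p < 2)
    (hq : q = p / (p - 1))
    (h1 : ∀ j, ∑ i, ‖M i j‖ ≤ a) (h2 : ∀ v, ∑ i, ‖M.mulVec v i‖ ^ 2 ≤ b * ∑ j, ‖v j‖ ^ 2)
    (u : m → ℂ) (v : n → ℂ) (hu : np q u = 1) (hv : np p v = 1) :
    ‖∑ i, u i * M.mulVec v i‖ ≤ a ^ (1 - (2 - 2 / p)) * (Real.sqrt b) ^ (2 - 2 / p) := by
  have hp0 : 0 < p := by linarith
  have hq0 : 0 < q := by rw [hq]; exact div_pos hp0 (by linarith)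
  set F : ℂ → ℂ := fun z => ∑ ij ∈ (Finset.univ : Finset (m × n)), (sg (u ij.1) * M ij.1 ij.2 * sg (v ij.2)) *
    Complex.exp (((p * Real.log ‖v ij.2‖ : ℝ) : ℂ) +
      ((q / 2 * Real.log ‖u ij.1‖ - p / 2 * Real.log ‖v ij.2‖ : ℝ) : ℂ) * z) with hF
  have hG : GoodR F := GoodR.sum _ _ fun ij _ => goodR_exp _ _ _
  -- factorisation
  have hfac : ∀ z : ℂ, F z = ∑ i, (sg (u i) * Complex.exp (((q / 2 * Real.log ‖u i‖ : ℝ) : ℂ) * z)) *
      M.mulVec (fun j => sg (v j) * Complex.exp (((p * Real.log ‖v j‖ : ℝ) : ℂ) * (1 - z / 2))) i := by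
    intro z
    simp only [hF]
    rw [← Finset.univ_product_univ, Finset.sum_product]
    refine Finset.sum_congr rfl fun i _ => ?_
    rw [Matrix.mulVec, dotProduct, Finset.mul_sum]
    refine Finset.sum_congr rfl fun j _ => ?_
    have e : Complex.exp (((p * Real.log ‖v j‖ : ℝ) : ℂ) +
        ((q / 2 * Real.log ‖u i‖ - p / 2 * Real.log ‖v j‖ : ℝ) : ℂ) * z) =
        Complex.exp (((q / 2 * Real.log ‖u i‖ : ℝ) : ℂ) * z) *
          Complex.exp (((p * Real.log ‖v j‖ : ℝ) : ℂ) * (1 - z / 2)) := by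
      rw [← Complex.exp_add]
      congr 1
      push_cast
      ring
    rw [e]
    ring
  have hUn : ∀ (z : ℂ) (i : m), ‖sg (u i) * Complex.exp (((q / 2 * Real.log ‖u i‖ : ℝ) : ℂ) * z)‖ =
      ‖sg (u i)‖ * Real.exp ((q / 2 * z.re) * Real.log ‖u i‖) := by
    intro z i
    rw [norm_mul, Complex.norm_exp]
    congr 2
    rw [Complex.re_ofReal_mul]
    ring
  have hVn : ∀ (z : ℂ) (j : n), ‖sg (v j) * Complex.exp (((p * Real.log ‖v j‖ : ℝ) : ℂ) * (1 - z / 2))‖ =
      ‖sg (v j)‖ * Real.exp ((p * (1 - z.re / 2)) * Real.log ‖v j‖) := by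
    intro z j
    rw [norm_mul, Complex.norm_exp]
    congr 2
    rw [Complex.re_ofReal_mul]
    have : (1 - z / 2 : ℂ).re = 1 - z.re / 2 := by
      simp
    rw [this]
    ring
  have hb0 : ∀ z : ℂ, z.re = 0 → ‖F z‖ ≤ a := by
    intro z hz
    rw [hfac z]
    have s1 : ∀ i, ‖sg (u i) * Complex.exp (((q / 2 * Real.log ‖u i‖ : ℝ) : ℂ) * z)‖ ≤ 1 := by
      intro i
      rw [hUn, hz]
      simpa using sg_norm_le (u i)
    have s2 : ∀ j, ‖sg (v j) * Complex.exp (((p * Real.log ‖v j‖ : ℝ) : ℂ) * (1 - z / 2))‖ = ‖v j‖ ^ p := by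
      intro j
      rw [hVn, hz]
      have := sg_exp_le (v j) p hp0
      simpa using this
    calc ‖∑ i, (sg (u i) * Complex.exp (((q / 2 * Real.log ‖u i‖ : ℝ) : ℂ) * z)) *
          M.mulVec (fun j => sg (v j) * Complex.exp (((p * Real.log ‖v j‖ : ℝ) : ℂ) * (1 - z / 2))) i‖
        ≤ ∑ i, ∑ j, ‖M i j‖ * ‖v j‖ ^ p := by
          refine (norm_sum_le _ _).trans (Finset.sum_le_sum fun i _ => ?_)
          rw [norm_mul]
          have t1 : ‖M.mulVec (fun j => sg (v j) *
              Complex.exp (((p * Real.log ‖v j‖ : ℝ) : ℂ) * (1 - z / 2))) i‖ ≤ ∑ j, ‖M i j‖ * ‖v j‖ ^ p := by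
            rw [Matrix.mulVec, dotProduct]
            refine (norm_sum_le _ _).trans (Finset.sum_le_sum fun j _ => ?_)
            rw [norm_mul, s2]
          calc _ ≤ 1 * ∑ j, ‖M i j‖ * ‖v j‖ ^ p := mul_le_mul (s1 i) t1 (norm_nonneg _) zero_le_one
            _ = _ := one_mul _
      _ = ∑ j, (∑ i, ‖M i j‖) * ‖v j‖ ^ p := by
          rw [Finset.sum_comm]
          refine Finset.sum_congr rfl fun j _ => ?_
          rw [Finset.sum_mul]
      _ ≤ ∑ j, a * ‖v j‖ ^ p :=
          Finset.sum_le_sum fun j _ => mul_le_mul_of_nonneg_right (h1 j) (by positivity)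
      _ = a := by
          rw [← Finset.mul_sum]
          have : ∑ j, ‖v j‖ ^ p = 1 := hv
          rw [this, mul_one]
  have hb1 : ∀ z : ℂ, z.re = 1 → ‖F z‖ ≤ Real.sqrt b := by
    intro z hz
    rw [hfac z]
    set U : m → ℂ := fun i => sg (u i) * Complex.exp (((q / 2 * Real.log ‖u i‖ : ℝ) : ℂ) * z) with hU
    set V : n → ℂ := fun j => sg (v j) * Complex.exp (((p * Real.log ‖v j‖ : ℝ) : ℂ) * (1 - z / 2)) with hV
    have sU : ∑ i, ‖U i‖ ^ 2 = 1 := by
      have : ∀ i, ‖U i‖ ^ 2 = ‖u i‖ ^ q := by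
        intro i
        simp only [hU]
        rw [hUn, hz, mul_one, sg_exp_le _ _ (by linarith), ← Real.rpow_natCast, ← Real.rpow_mul (norm_nonneg _)]
        congr 1
        push_cast
        ring
      simp only [this]
      exact hu
    have sV : ∑ j, ‖V j‖ ^ 2 = 1 := by
      have : ∀ j, ‖V j‖ ^ 2 = ‖v j‖ ^ p := by
        intro j
        simp only [hV]
        rw [hVn, hz, sg_exp_le _ _ (by linarith), ← Real.rpow_natCast, ← Real.rpow_mul (norm_nonneg _)]
        congr 1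
        push_cast
        ring
      simp only [this]
      exact hv
    have c1 : ‖∑ i, U i * M.mulVec V i‖ ≤ ∑ i, ‖U i‖ * ‖M.mulVec V i‖ := by
      refine (norm_sum_le _ _).trans (Finset.sum_le_sum fun i _ => ?_)
      rw [norm_mul]
    have c2 := Finset.sum_mul_sq_le_sq_mul_sq Finset.univ (fun i => ‖U i‖) (fun i => ‖M.mulVec V i‖)
    rw [sU, one_mul] at c2
    have c3 := h2 V
    rw [sV, mul_one] at c3
    apply c1.trans
    apply Real.le_sqrt_of_sq_le
    exact c2.trans c3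
  have hθ0 : 0 ≤ 2 - 2 / p := by
    have : 2 / p ≤ 2 := by
      rw [div_le_iff₀ hp0]
      linarith
    linarith
  have hθ1 : 2 - 2 / p ≤ 1 := by
    have : 1 ≤ 2 / p := by
      rw [le_div_iff₀ hp0]
      linarith
    linarith
  have key := three_linesR hG hb0 hb1 (2 - 2 / p) hθ0 hθ1
  have hval : F ((2 - 2 / p : ℝ) : ℂ) = ∑ i, u i * M.mulVec v i := by
    rw [hfac]
    have eU : ∀ i, sg (u i) * Complex.exp (((q / 2 * Real.log ‖u i‖ : ℝ) : ℂ) * ((2 - 2 / p : ℝ) : ℂ)) = u i := by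
      intro i
      by_cases hi : u i = 0
      · simp [hi, sg]
      · have hpos := norm_pos_iff.mpr hi
        have : ((q / 2 * Real.log ‖u i‖ : ℝ) : ℂ) * ((2 - 2 / p : ℝ) : ℂ) = ((Real.log ‖u i‖ : ℝ) : ℂ) := by
          rw [← Complex.ofReal_mul]
          congr 1
          have : q / 2 * (2 - 2 / p) = 1 := by
            rw [hq]
            have : p - 1 ≠ 0 := by linarith
            field_simp
          calc q / 2 * Real.log ‖u i‖ * (2 - 2 / p) = (q / 2 * (2 - 2 / p)) * Real.log ‖u i‖ := by ring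
            _ = Real.log ‖u i‖ := by rw [this, one_mul]
        rw [this, ← Complex.ofReal_exp, Real.exp_log hpos, sg]
        have : ((‖u i‖ : ℝ) : ℂ) ≠ 0 := by exact_mod_cast hpos.ne'
        field_simp
    have eV : ∀ j, sg (v j) * Complex.exp (((p * Real.log ‖v j‖ : ℝ) : ℂ) * (1 - ((2 - 2 / p : ℝ) : ℂ) / 2)) = v j := by
      intro j
      by_cases hj : v j = 0
      · simp [hj, sg]
      · have hpos := norm_pos_iff.mpr hj
        have : ((p * Real.log ‖v j‖ : ℝ) : ℂ) * (1 - ((2 - 2 / p : ℝ) : ℂ) / 2) = ((Real.log ‖v j‖ : ℝ) : ℂ) := by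
          have e1 : (1 - ((2 - 2 / p : ℝ) : ℂ) / 2) = ((1 / p : ℝ) : ℂ) := by
            push_cast
            ring
          rw [e1, ← Complex.ofReal_mul]
          congr 1
          field_simp
        rw [this, ← Complex.ofReal_exp, Real.exp_log hpos, sg]
        have : ((‖v j‖ : ℝ) : ℂ) ≠ 0 := by exact_mod_cast hpos.ne'
        field_simp
    simp only [eU, eV]
  rw [hval] at key
  exact key

theorem hRTH : StRth := by
  intro m n _ _ p M a b hp1 hp2 ha hb h1 h2 v
  have hp0 : 0 < p := by linarith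
  have hpm : 0 < p - 1 := by linarith
  set q : ℝ := p / (p - 1) with hq
  have hq0 : 0 < q := div_pos hp0 hpm
  set G : ℝ := np p (M.mulVec v) with hGd
  set N : ℝ := np p v with hNd
  have hN0 : 0 ≤ N := Finset.sum_nonneg fun j _ => by positivity
  have hG0 : 0 ≤ G := Finset.sum_nonneg fun j _ => by positivity
  have hC0 : 0 ≤ a ^ (2 - p) * b ^ (p - 1) := by positivity
  by_cases hv : N = 0
  · have hv0 : v = 0 := by
      funext j
      have := (Finset.sum_eq_zero_iff_of_nonneg (fun j _ => by positivity)).mp hv j (Finset.mem_univ j)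
      rw [Real.rpow_eq_zero (norm_nonneg _) hp0.ne'] at this
      simpa using this
    have : G = 0 := by
      rw [hGd, hv0]
      simp [np, Real.zero_rpow hp0.ne']
    rw [this]
    positivity
  by_cases hG : G = 0
  · rw [hG]
    positivity
  have hNp : 0 < N := lt_of_le_of_ne hN0 (Ne.symm hv)
  have hGp : 0 < G := lt_of_le_of_ne hG0 (Ne.symm hG)
  set v' : n → ℂ := fun j => (((N ^ (-(1 / p)) : ℝ)) : ℂ) * v j with hv'
  set u : m → ℂ := fun i => (((G ^ (-(1 / q)) : ℝ)) : ℂ) * (star (M.mulVec v i) * ((‖M.mulVec v i‖ ^ (p - 2) : ℝ) : ℂ)) with hu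
  have nv' : np p v' = 1 := by
    unfold np
    have : ∀ j, ‖v' j‖ ^ p = N⁻¹ * ‖v j‖ ^ p := by
      intro j
      simp only [hv']
      rw [norm_mul, Complex.norm_real, Real.norm_of_nonneg (by positivity),
        Real.mul_rpow (by positivity) (norm_nonneg _), ← Real.rpow_mul hN0]
      congr 1
      rw [← Real.rpow_neg_one]
      congr 1
      field_simp
    simp only [this]
    rw [← Finset.mul_sum]
    exact inv_mul_cancel₀ hv
  have nu : np q u = 1 := by
    unfold np
    have : ∀ i, ‖u i‖ ^ q = G⁻¹ * ‖M.mulVec v i‖ ^ p := by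
      intro i
      simp only [hu]
      by_cases hi : M.mulVec v i = 0
      · rw [hi]
        simp [Real.zero_rpow hq0.ne', Real.zero_rpow hp0.ne']
      · have hpos := norm_pos_iff.mpr hi
        rw [norm_mul, norm_mul, norm_star, Complex.norm_real, Complex.norm_real,
          Real.norm_of_nonneg (by positivity), Real.norm_of_nonneg (by positivity)]
        have : ‖M.mulVec v i‖ * ‖M.mulVec v i‖ ^ (p - 2) = ‖M.mulVec v i‖ ^ (p - 1) := by
          nth_rewrite 1 [← Real.rpow_one ‖M.mulVec v i‖]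
          rw [← Real.rpow_add hpos]
          congr 1
          ring
        rw [this, Real.mul_rpow (by positivity) (by positivity), ← Real.rpow_mul hG0, ← Real.rpow_mul hpos.le]
        congr 1
        · rw [← Real.rpow_neg_one]
          congr 1
          field_simp
        · congr 1
          rw [hq]
          field_simp
    simp only [this]
    rw [← Finset.mul_sum]
    exact inv_mul_cancel₀ hG
  have key := bilR m n p q M a b hp1 hp2 hq h1 h2 u v' nu nv'
  have hval : ∑ i, u i * M.mulVec v' i = ((G ^ (1 / p) * N ^ (-(1 / p)) : ℝ) : ℂ) := by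
    have e1 : ∀ i, M.mulVec v' i = ((N ^ (-(1 / p)) : ℝ) : ℂ) * M.mulVec v i := by
      intro i
      simp only [hv', Matrix.mulVec, dotProduct, Finset.mul_sum]
      refine Finset.sum_congr rfl fun j _ => ?_
      ring
    have e2 : ∀ i, star (M.mulVec v i) * ((‖M.mulVec v i‖ ^ (p - 2) : ℝ) : ℂ) * M.mulVec v i =
        ((‖M.mulVec v i‖ ^ p : ℝ) : ℂ) := by
      intro i
      by_cases hi : M.mulVec v i = 0
      · rw [hi]
        simp [Real.zero_rpow hp0.ne']
      · have hpos := norm_pos_iff.mpr hi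
        have : star (M.mulVec v i) * M.mulVec v i = ((‖M.mulVec v i‖ ^ (2:ℝ) : ℝ) : ℂ) := by
          rw [Real.rpow_two]
          have := Complex.conj_mul' (M.mulVec v i)
          simpa using this
        calc star (M.mulVec v i) * ((‖M.mulVec v i‖ ^ (p - 2) : ℝ) : ℂ) * M.mulVec v i
            = (star (M.mulVec v i) * M.mulVec v i) * ((‖M.mulVec v i‖ ^ (p - 2) : ℝ) : ℂ) := by ring
          _ = _ := by
              rw [this, ← Complex.ofReal_mul, ← Real.rpow_add hpos]
              congr 2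
              ring
    calc ∑ i, u i * M.mulVec v' i
        = ∑ i, ((G ^ (-(1 / q)) : ℝ) : ℂ) * ((N ^ (-(1 / p)) : ℝ) : ℂ) * ((‖M.mulVec v i‖ ^ p : ℝ) : ℂ) := by
          refine Finset.sum_congr rfl fun i _ => ?_
          rw [e1 i, ← e2 i]
          simp only [hu]
          ring
      _ = ((G ^ (-(1 / q)) * N ^ (-(1 / p)) * G : ℝ) : ℂ) := by
          rw [← Finset.mul_sum, ← Complex.ofReal_sum]
          have hGs : ∑ i, ‖M.mulVec v i‖ ^ p = G := rfl
          rw [hGs]
          push_cast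
          ring
      _ = _ := by
          congr 1
          have : G ^ (1 / p) = G ^ (-(1 / q)) * G := by
            nth_rewrite 3 [← Real.rpow_one G]
            rw [← Real.rpow_add hGp]
            congr 1
            rw [hq]
            field_simp
            ring
          rw [this]
          ring
  rw [hval, Complex.norm_real, Real.norm_of_nonneg (by positivity)] at key
  -- raise to the power p
  have k2 := Real.rpow_le_rpow (by positivity) key hp0.le
  have l1 : (G ^ (1 / p) * N ^ (-(1 / p))) ^ p = G * N⁻¹ := by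
    rw [Real.mul_rpow (by positivity) (by positivity), ← Real.rpow_mul hG0, ← Real.rpow_mul hN0,
      ← Real.rpow_neg_one]
    congr 1
    · rw [one_div_mul_cancel hp0.ne', Real.rpow_one]
    · congr 1
      field_simp
  have l2 : (a ^ (1 - (2 - 2 / p)) * Real.sqrt b ^ (2 - 2 / p)) ^ p = a ^ (2 - p) * b ^ (p - 1) := by
    rw [Real.mul_rpow (by positivity) (by positivity), ← Real.rpow_mul ha.le, ← Real.rpow_mul (Real.sqrt_nonneg b),
      Real.sqrt_eq_rpow, ← Real.rpow_mul hb.le]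
    congr 2
    · field_simp
      ring
    · field_simp
  rw [l1, l2] at k2
  calc G = G * N⁻¹ * N := by field_simp
    _ ≤ a ^ (2 - p) * b ^ (p - 1) * N := mul_le_mul_of_nonneg_right k2 hN0

end Pool.Agent.Helper2.XP
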